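import Pool.Agent.H87.Act.Fin

/-!
# Compact aspherical manifolds whose groups are commensurable with right-angled Artin groups

Let `M` be a compact aspherical `n`-manifold, possibly with boundary, whose fundamental group `Γ` is
commensurable with the right-angled Artin group `A` of a finite graph: some subgroup `Γ'` of finite index
in `Γ` is isomorphic to a subgroup of finite index in `A`. The theorem says that the `ℓ²`-Betti numbers of
`M` vanish in all degrees `i > n / 2`, as conjectured by Okun and Schreve.

What is used about `M` is the following. The group `Γ` (hence `Γ'`) acts properly discontinuously on the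
contractible space `X = universal cover of M`, and `X × X` has a continuous injective map to `ℝ^(2 n + 1)`.
The latter is clear if `X ⊆ ℝ^n`; in general `X` embeds in its interior `W`, and the product of the open
contractible `n`-manifold `W` with `ℝ` is homeomorphic to `ℝ^(n + 1)` (McMillan, Stallings, Freedman and
others; not formalised here), so that `W × W ⊆ W × W × ℝ ≅ W × ℝ^(n+1) ≅ ℝ^(2 n + 1)`. The chain complex of
the universal cover of a finite complex homotopy equivalent to `M` is a finite free resolution `Z` of
`ℤ` over `ℤ[Γ]`; `L2Zero Z i` says that there is no nonzero square summable harmonic `i`-chain.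
`FinRes` and `L2Zero` are defined in `Pool.Agent.H919R4.ZS.Defs` and `Pool.Agent.R779.CT.Defs`.

Proof. Let `L` be the flag complex of the graph. The octahedralization of `L` maps to `X` through the
flats of `A`; taking a large scale one gets an odd map without zeros from its deleted join, and so the
mod 2 van Kampen obstructions vanish in the dimensions above `n`. A cycle in the deleted join of the
octahedralization, built from a homology class of `L` and a cocycle dual to it, shows that the
mod 2 homology of `L` vanishes in degree `i - 1` if `i` is large. The square of the action gives the sharp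
range `i > n / 2`. Finally, over the von Neumann algebra the Salvetti complex of `A` can be compared
with the augmented chain complex of `L`, since the elements `g_v - 1` are weakly invertible.
-/

set_option autoImplicit false

namespace Pool.Agent.Results.MP_8fe54c_gt.ArtinCommensurable

open Pool.Agent.H919R4.ZS (FinRes)
open Pool.Agent.R779.CT (L2Zero)

/-- The right-angled Artin group of a graph: a generator for every vertex; the generators of
adjacent vertices commute. -/
abbrev ArtinGroup {V : Type} (G : SimpleGraph V) : Type :=
  PresentedGroup {r : FreeGroup V | ∃ a b, G.Adj a b ∧
    r = FreeGroup.of a * FreeGroup.of b * (FreeGroup.of a)⁻¹ * (FreeGroup.of b)⁻¹}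

/-- Proper discontinuous actions by homeomorphisms. -/
structure IsProperAction (Γ X : Type) [Group Γ] [TopologicalSpace X] [MulAction Γ X] : Prop where
  continuous : ∀ γ : Γ, Continuous fun x : X => γ • x
  proper : ∀ K : Set X, IsCompact K → {γ : Γ | ∃ x ∈ K, γ • x ∈ K}.Finite

/-- **Theorem.** Let `φ` and `ψ` be injective homomorphisms of `Γ'` onto subgroups of finite index in the
group `Γ` and in the right-angled Artin group of a finite graph. Let `Γ'` act properly discontinuously on
the contractible space `X`, and let `X × X` have a continuous injective map to `ℝ^(2 n + 1)`. Then the
reduced `ℓ²`-homology of every finite free resolution of `ℤ` over `ℤ[Γ]` vanishes in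
all degrees `i > n / 2`. -/
theorem result {V : Type} [Finite V] (G : SimpleGraph V) {Γ Γ' : Type} [Group Γ] [Group Γ']
    (φ : Γ' →* Γ) (hφ : Function.Injective φ) (hφ' : φ.range.FiniteIndex)
    (ψ : Γ' →* ArtinGroup G) (hψ : Function.Injective ψ) (hψ' : ψ.range.FiniteIndex)
    (X : Type) [TopologicalSpace X] [ContractibleSpace X] [MulAction Γ' X] (hX : IsProperAction Γ' X)
    (n : ℕ) (ι : X × X → (Fin (2 * n + 1) → ℝ)) (hι : Continuous ι) (hι' : Function.Injective ι)
    (Z : FinRes Γ) (i : ℕ) (hi : n < 2 * i) : L2Zero Z i :=
  Pool.Agent.H87.Act.main G φ hφ hφ' ψ hψ hψ' hX.continuous hX.proper ι hι hι' Z hi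

end Pool.Agent.Results.MP_8fe54c_gt.ArtinCommensurable
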