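import Pool.Agent.H87.Oct.EmbOct
import Pool.Graph.R_seed8.R781.VS.Growth

/-!
# The vanishing above the middle dimension for right-angled Artin type reflection groups, in all degrees

Let `G` be a finite graph with flag complex `L`. The octahedralization `O L` of `L` is the flag complex of the graph
`G.comap Prod.fst` on `V × Bool`, in which each vertex `v` of `L` is replaced by two vertices `(v, true)`,
`(v, false)` which are not adjacent. Its right-angled Coxeter group `W` is the graph product over `G` of infinite
dihedral groups and is commensurable with the right-angled Artin group `A_L`. If `O L` is piecewise linearly embedded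
in the sphere of dimension `n - 1` then the torsion-free subgroups of finite index of `W` (and `A_L`) are
fundamental groups of compact aspherical `n`-manifolds with boundary, and Q1 predicts that the `ℓ²`-homology
vanishes in the degrees `> n / 2`.

No condition on the dimension of `L` is needed: the Betti numbers of `L` in the degrees below the dimension of `L`
are included. The proof shows that for the largest `j` with `H_j(L; ℤ/2) ≠ 0` (reduced homology) the mod `2`
van Kampen class of degree `2 j` of `O L` is not zero.
-/

set_option autoImplicit false

namespace Pool.Agent.Results.MP_8fe54c_gt.OctahedralNerves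

open Pool.Agent.W907.SG Pool.Agent.R782.Bal Pool.Agent.Y132.SI

/-- Let `G` be a finite graph such that the flag complex of `G.comap Prod.fst`, that is, the octahedralization of the
flag complex of `G`, is embedded in the sphere of dimension `2 d` (`Emb`: topologically, or almost embedded, or as a
subcomplex of a mod `2` homology sphere). Then the Davis complex of the right-angled Coxeter group of this graph
carries no nonzero square summable harmonic chains in the degrees `i > d`, and for each `ε > 0` there is a finite set
`E` of nontrivial elements of this group such that for all subgroups `H` of finite index which contain no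
conjugate of an element of `E` and all `i > d` the `i`-th real Betti number of the quotient of the Davis complex by
`H` is at most `ε` times the index. -/
theorem result : ∀ (d : ℕ) (V : Type) [Fintype V] [LinearOrder V] [LinearOrder (V × Bool)] (G : SimpleGraph V),
    Emb d (G.comap (Prod.fst : V × Bool → V)) →
    (∀ i : ℕ, d < i → L2Van (G.comap (Prod.fst : V × Bool → V)) i) ∧
    ∀ ε : ℝ, 0 < ε → ∃ E : Finset (W (G.comap (Prod.fst : V × Bool → V))), (1 : W _) ∉ E ∧
      ∀ H : Subgroup (W (G.comap (Prod.fst : V × Bool → V))), H.FiniteIndex →
        (∀ g ∈ E, ∀ x : W _, x * g * x⁻¹ ∉ H) → ∀ i : ℕ, d < i →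
          (Module.finrank ℝ (HInv (G.comap (Prod.fst : V × Bool → V)) H i) : ℝ) ≤ ε * H.index := by
  intro d V _ _ _ G h
  have h1 : ∀ i : ℕ, d < i → L2Van (G.comap (Prod.fst : V × Bool → V)) i :=
    fun i hi => Pool.Agent.H87.Oct.l2_of_emb h hi
  refine ⟨h1, fun ε hε => ?_⟩
  obtain ⟨E, h2, h3⟩ := Pool.Agent.R781.VS.growth_of_above _ (2 * d + 1) (fun i hi => h1 i (by omega)) ε hε
  exact ⟨E, h2, fun H hH hE i hi => h3 H hH hE i (by omega)⟩

end Pool.Agent.Results.MP_8fe54c_gt.OctahedralNerves
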